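import Pool.Agent.OPG.Stmts

set_option autoImplicit false

/-! Row BAD of OPG. -/

namespace Pool.Agent.OPG.H17

open Finset Pool.Agent.OPG

theorem one (a b : ℕ) (C Q : ℝ) (u : ℕ) (hQ : 1 ≤ Q) (hC : 1 / 2 ≤ C) :
    ((((Icc a b).filter fun Y : ℕ => |(u : ℝ) - C * Y| ≤ 4 * Q).card : ℕ) : ℝ) ≤ 17 * Q := by
  set S := (Icc a b).filter fun Y : ℕ => |(u : ℝ) - C * Y| ≤ 4 * Q with hS
  rcases S.eq_empty_or_nonempty with h | h
  · rw [h]
    simp
    linarith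
  · set m := S.min' h with hm
    have hmS : m ∈ S := S.min'_mem h
    have h1 : S ⊆ Icc m (m + ⌊16 * Q⌋₊) := by
      intro Y hY
      have h2 : m ≤ Y := S.min'_le Y hY
      rw [mem_Icc]
      refine ⟨h2, ?_⟩
      have h3 := (mem_filter.mp hY).2
      have h4 := (mem_filter.mp hmS).2
      rw [abs_le] at h3 h4
      have h5 : C * ((Y : ℝ) - m) ≤ 8 * Q := by nlinarith [h3.1, h4.2]
      have h6 : (0 : ℝ) ≤ (Y : ℝ) - m := by
        have : (m : ℝ) ≤ Y := by exact_mod_cast h2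
        linarith
      have h7 : (Y : ℝ) - m ≤ 16 * Q := by nlinarith
      have h8 : ((Y - m : ℕ) : ℝ) ≤ 16 * Q := by
        rw [Nat.cast_sub h2]
        exact h7
      have h9 : Y - m ≤ ⌊16 * Q⌋₊ := Nat.le_floor h8
      omega
    have h2 := card_le_card h1
    rw [Nat.card_Icc] at h2
    have h3 : (S.card : ℝ) ≤ ((⌊16 * Q⌋₊ + 1 : ℕ) : ℝ) := by
      exact_mod_cast h2.trans (by omega)
    have h4 : ((⌊16 * Q⌋₊ : ℕ) : ℝ) ≤ 16 * Q := Nat.floor_le (by linarith)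
    push_cast at h3
    linarith

/-- **Row BAD.** -/
theorem bad : BadStmt := by
  intro J a b C U Q hQ hC h
  have h1 : Icc a b ⊆ (range (J + 1) ×ˢ U).biUnion fun x =>
      (Icc a b).filter fun Y : ℕ => |(x.2 : ℝ) - C x.1 * Y| ≤ 4 * Q := by
    intro Y hY
    obtain ⟨i, hi, u, hu, hh⟩ := h Y hY
    rw [mem_biUnion]
    exact ⟨(i, u), mem_product.mpr ⟨mem_range.mpr (by omega), hu⟩, mem_filter.mpr ⟨hY, hh⟩⟩
  have h2 : ((Icc a b).card : ℝ) ≤ ∑ x ∈ range (J + 1) ×ˢ U,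
      (((Icc a b).filter fun Y : ℕ => |(x.2 : ℝ) - C x.1 * Y| ≤ 4 * Q).card : ℝ) := by
    exact_mod_cast (card_le_card h1).trans card_biUnion_le
  have h3 : ∑ x ∈ range (J + 1) ×ˢ U,
      (((Icc a b).filter fun Y : ℕ => |(x.2 : ℝ) - C x.1 * Y| ≤ 4 * Q).card : ℝ) ≤
      ∑ x ∈ range (J + 1) ×ˢ U, 17 * Q := by
    refine sum_le_sum fun x hx => ?_
    have h4 := (mem_product.mp hx).1
    exact one a b (C x.1) Q x.2 hQ (hC x.1 (by have := mem_range.mp h4; omega))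
  rw [sum_const, card_product, card_range, nsmul_eq_mul] at h3
  have h4 : (b : ℝ) - a ≤ ((Icc a b).card : ℝ) := by
    rw [Nat.card_Icc]
    rcases le_total a (b + 1) with h5 | h5
    · rw [Nat.cast_sub h5]
      push_cast
      linarith
    · have h6 : (b : ℝ) + 1 ≤ a := by exact_mod_cast h5
      have h7 : (0 : ℝ) ≤ ((b + 1 - a : ℕ) : ℝ) := Nat.cast_nonneg _
      linarith
  push_cast at h3
  linarith

end Pool.Agent.OPG.H17
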